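import Pool.Agent.Run7.h251.NI.Gen

/-!
# Words in random affine maps, part 2: the sequences
-/

set_option autoImplicit false

namespace Run7.h251.NI

open Finset
open Pool.Agent.Run7.h931.RL (cls)
open Run7.h251.KW (cls_eq card_pre)

variable {K : Type} [Field K] [Fintype K]

/-- the sequences `c j + M (b j + 1 + π (word k h x j))` -/
def wseq (M p k : ℕ) (π : K →+ ZMod p) (c b : ℕ → ℕ) (z : K × (Fin k → K × K)) (j : ℕ) : ℕ :=
  c j + M * (b j + 1 + (π (word k z.2 z.1 j)).val)

/-- all rectangles have the right probability, up to `2 ^ k / √Q` -/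
theorem word_fool (M p k m : ℕ) [Fact p.Prime] (hM : 1 ≤ M) (π : K →+ ZMod p) (hπ : Function.Surjective π) (c b : ℕ → ℕ)
    (hm : m ≤ 2 ^ k) : Fool ((2 : ℝ) ^ k / Real.sqrt (Fintype.card K)) m
      (fun j => cls M (c j) (c j + M * b j) (M * p)) (wseq M p k π c b) := by
  classical
  have hinj : ∀ j : ℕ, Function.Injective (fun y : ZMod p => c j + M * (b j + 1 + y.val)) := by
    intro j y y' h
    have h1 : M * (b j + 1 + y.val) = M * (b j + 1 + y'.val) := Nat.add_left_cancel h
    have h2 := Nat.eq_of_mul_eq_mul_left (by omega) h1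
    exact ZMod.val_injective p (by omega)
  constructor
  · intro x j _
    show wseq M p k π c b x j ∈ cls M (c j) (c j + M * b j) (M * p)
    rw [cls_eq M p (c j) (b j) hM]
    exact mem_image_of_mem _ (mem_univ (π (word k x.2 x.1 j)))
  · intro B hB
    obtain ⟨Q, hQ⟩ : ∃ Q : ℝ, Q = Fintype.card K := ⟨_, rfl⟩
    have hQ0 : 0 < Q := by rw [hQ]; exact_mod_cast Fintype.card_pos
    have hsQ : 0 < Real.sqrt Q := Real.sqrt_pos.2 hQ0
    have hp0 : (0 : ℝ) < p := by exact_mod_cast (Fact.out : p.Prime).pos
    obtain ⟨V, hV⟩ : ∃ V : ℕ → Finset (ZMod p), V = fun j => univ.filter fun y => c j + M * (b j + 1 + y.val) ∈ B j := ⟨_, rfl⟩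
    have hVc : ∀ j < m, (V j).card = (B j).card := by
      intro j hj
      rw [← card_image_of_injective (V j) (hinj j)]
      congr 1
      ext v
      rw [mem_image, hV]
      constructor
      · rintro ⟨y, hy, rfl⟩
        simp only [mem_filter, mem_univ, true_and] at hy
        exact hy
      · intro hv
        have h1 : v ∈ cls M (c j) (c j + M * b j) (M * p) := hB j hj hv
        rw [cls_eq M p (c j) (b j) hM, mem_image] at h1
        obtain ⟨y, _, rfl⟩ := h1
        exact ⟨y, by simp only [mem_filter, mem_univ, true_and]; exact hv, rfl⟩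
    have hUc : ∀ j, ((cls M (c j) (c j + M * b j) (M * p)).card) = p := by
      intro j
      rw [cls_eq M p (c j) (b j) hM, card_image_of_injective _ (hinj j), card_univ, ZMod.card]
    obtain ⟨G, hG⟩ : ∃ G : ℕ → Finset K, G = fun j => if j < m then univ.filter fun y => π y ∈ (V j)ᶜ else univ := ⟨_, rfl⟩
    have hGc : ∀ j < m, ((G j).card : ℝ) / Q = 1 - (B j).card / (cls M (c j) (c j + M * b j) (M * p)).card := by
      intro j hj
      have h1 := card_pre π hπ ((V j)ᶜ)
      rw [ZMod.card, card_compl, ZMod.card, hVc j hj] at h1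
      have h2 : (B j).card ≤ p := by
        rw [← hVc j hj]
        refine (card_le_univ (V j)).trans (le_of_eq (ZMod.card p))
      have h3 : ((G j).card : ℝ) * p = Q * ((p : ℝ) - (B j).card) := by
        rw [hG, hQ]
        simp only
        rw [if_pos hj]
        have : (((univ.filter fun g => π g ∈ (V j)ᶜ).card * p : ℕ) : ℝ) = ((Fintype.card K * (p - (B j).card) : ℕ) : ℝ) := by
          exact_mod_cast h1
        rw [Nat.cast_mul, Nat.cast_mul, Nat.cast_sub h2] at this
        exact this
      rw [hUc j]
      field_simp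
      linarith
    have hGu : ∀ j, m ≤ j → ((G j).card : ℝ) / Q = 1 := by
      intro j hj
      rw [hG]
      simp only
      rw [if_neg (by omega), card_univ, ← hQ, div_self hQ0.ne']
    have hprod : ∏ j ∈ range (2 ^ k), ((G j).card / Q : ℝ) =
        ∏ j ∈ range m, (1 - (B j).card / (cls M (c j) (c j + M * b j) (M * p)).card : ℝ) := by
      rw [← prod_subset (range_subset_range.2 hm) (fun j _ hj => hGu j (by rw [mem_range] at hj; omega))]
      exact prod_congr rfl fun j hj => hGc j (mem_range.1 hj)
    have hrect := rect k G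
    rw [← hQ] at hrect
    have hcount : ((univ.filter fun z : K × (Fin k → K × K) => ∀ j < m, wseq M p k π c b z j ∉ B j).card : ℝ) =
        ∑ h : Fin k → K × K, ((univ.filter fun x => ∀ j < 2 ^ k, word k h x j ∈ G j).card : ℝ) := by
      rw [card_filter]
      push_cast
      rw [Fintype.sum_prod_type, sum_comm]
      apply sum_congr rfl
      intro h _
      rw [card_filter]
      push_cast
      apply sum_congr rfl
      intro x _
      have e1 : (∀ j < m, wseq M p k π c b (x, h) j ∉ B j) ↔ ∀ j < 2 ^ k, word k h x j ∈ G j := by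
        constructor
        · intro h1 j _
          rw [hG]
          simp only
          split_ifs with h3
          · rw [mem_filter, mem_compl, hV]
            refine ⟨mem_univ _, ?_⟩
            simp only [mem_filter, mem_univ, true_and]
            exact h1 j h3
          · exact mem_univ _
        · intro h1 j hj
          have := h1 j (by omega)
          rw [hG] at this
          simp only at this
          rw [if_pos hj, mem_filter, mem_compl, hV] at this
          simp only [mem_filter, mem_univ, true_and] at this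
          exact this
      by_cases h2 : ∀ j < m, wseq M p k π c b (x, h) j ∉ B j
      · rw [if_pos h2, if_pos (e1.1 h2)]
      · rw [if_neg h2, if_neg (fun h3 => h2 (e1.2 h3))]
    have hι : (Fintype.card (K × (Fin k → K × K)) : ℝ) = Q * (Q ^ 2) ^ k := by
      rw [Fintype.card_prod, Fintype.card_fun, Fintype.card_prod, Fintype.card_fin, hQ]
      push_cast
      ring
    have hH : ∑ h : Fin k → K × K, (1 : ℝ) = (Q ^ 2) ^ k := by
      rw [sum_const, card_univ, Fintype.card_fun, Fintype.card_prod, Fintype.card_fin, hQ]
      push_cast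
      rw [nsmul_eq_mul, mul_one]
      push_cast
      ring
    rw [hcount, ← hprod, hι]
    have e1 : ∑ h : Fin k → K × K, ((univ.filter fun x => ∀ j < 2 ^ k, word k h x j ∈ G j).card : ℝ) -
        Q * (Q ^ 2) ^ k * ∏ j ∈ range (2 ^ k), ((G j).card / Q : ℝ) =
        Q * ∑ h : Fin k → K × K, (((univ.filter fun x => ∀ j < 2 ^ k, word k h x j ∈ G j).card : ℝ) / Q -
          ∏ j ∈ range (2 ^ k), ((G j).card / Q : ℝ)) := by
      rw [sum_sub_distrib, mul_sub, mul_sum, mul_sum]
      congr 1
      · apply sum_congr rfl
        intro h _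
        field_simp
      · rw [← mul_sum, sum_const, ← hH, sum_const, nsmul_eq_mul, nsmul_eq_mul, mul_one]
        ring
    rw [e1, abs_mul, abs_of_pos hQ0, mul_assoc]
    apply mul_le_mul_of_nonneg_left _ hQ0.le
    refine (abs_sum_le_sum_abs _ _).trans (hrect.trans ?_)
    rw [mul_comm]
    apply mul_le_mul_of_nonneg_left _ (by positivity)
    rw [← hQ]
    apply div_le_div_of_nonneg_right _ hsQ.le
    linarith

end Run7.h251.NI
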