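import Pool.Agent.Run7.h251.NI.Two
import Pool.Agent.Run7.h251.KW.Law

/-!
# Words in random affine maps, part 6: the longest run of composite values
-/

set_option autoImplicit false

namespace Run7.h251.NI

open Finset Filter
open Pool.Agent.Run7.h931.RS (Pw one_le_Pw ev_log)
open Pool.Agent.Run7.h931.RL (cls sur sur_mono sur_succ sur_zero sur_id)
open Run7.h251.KW (surv FreeS freeS_iff FreeS.mono runS)

/-- the law of the longest run -/
theorem law_N (ε : ℝ) (hε : 0 < ε) (hε1 : ε ≤ 1) : ∃ w₀ : ℕ, ∀ T a w : ℕ, w₀ ≤ w → ∀ M : ℕ, 1 ≤ M → (∀ p : ℕ, p.Prime → (p ∣ M ↔ p ≤ w)) →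
    ∀ᶠ N : ℕ in atTop, ∀ q : ℕ,
    (N : ℝ) ≤ q * Real.log N ^ a → q ≤ N → ∀ (Δ : ℝ) (m : ℕ) (c b : ℕ → ℕ), 0 ≤ Δ → Δ ≤ Real.exp (-(9 / 4 * Real.log N)) → (∀ j, b j ≤ T * N) →
      ∀ (ι : Type) [Fintype ι] (σ : ι → ℕ → ℕ), Fool Δ m (fun j => cls M (c j) (b j) q) σ →
      (1 + ε) * Real.log N ^ 2 ≤ Pw w * sur M c m →
      ((univ.filter fun i => ε * Real.log N ^ 2 < |Pw w * sur M c (runS N m (σ i)) - Real.log N ^ 2|).card : ℝ) ≤
        ε * Fintype.card ι := by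
  classical
  obtain ⟨w₀, hw₀⟩ := two_N (ε / 2) (by positivity) (by linarith)
  refine ⟨w₀, fun T a w hw M hM1 hM => ?_⟩
  have hP := one_le_Pw w
  filter_upwards [one_N T a w M hM1 hM ε hε hε1, hw₀ T a w hw M hM1 hM, ev_log (Real.log (2 / ε) / (ε / 2)), ev_log 1,
    ev_log (2 * Pw w / ε), eventually_ge_atTop 3] with N g1 g2 g3 g4 g5 g6 q hq hqN Δ m c b hΔ0 hκ hb ι _ σ hσ hm
  obtain ⟨L, hL⟩ : ∃ L, L = Real.log (N : ℝ) := ⟨_, rfl⟩
  have hN0 : (0 : ℝ) < N := by exact_mod_cast (by omega : 0 < N)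
  have hN1 : (1 : ℝ) ≤ N := by exact_mod_cast (by omega : 1 ≤ N)
  have k1 := fun k (hk : k ≤ m) => g1 q hq hqN Δ k c b hκ hb ι σ (hσ.mono hk)
  have k2 := fun k (hk : k ≤ m) => g2 q hq hqN Δ k c b hΔ0 hκ hb ι σ (hσ.mono hk)
  rw [← hL] at g3 g4 g5 hm k1 k2 hκ ⊢
  have hL0 : 0 < L := by linarith
  have hLL : 2 * Pw w ≤ ε * L ^ 2 := by
    rw [div_le_iff₀ hε] at g5
    nlinarith
  have hι : (0 : ℝ) ≤ Fintype.card ι := Nat.cast_nonneg _
  have hrunm : ∀ s : ℕ → ℕ, runS N m s ≤ m := fun s => Nat.findGreatest_le m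
  obtain ⟨B1, hB1⟩ : ∃ B1 : Finset ι, B1 = univ.filter fun i => (1 + ε) * L ^ 2 < Pw w * sur M c (runS N m (σ i)) := ⟨_, rfl⟩
  obtain ⟨B2, hB2⟩ : ∃ B2 : Finset ι, B2 = univ.filter fun i => Pw w * sur M c (runS N m (σ i)) < (1 - ε) * L ^ 2 := ⟨_, rfl⟩
  have c1 : (B1.card : ℝ) ≤ ε / 2 * Fintype.card ι := by
    have hex : ∃ k, (1 + ε) * L ^ 2 ≤ Pw w * sur M c k := ⟨m, hm⟩
    obtain ⟨k, hk⟩ : ∃ k, k = Nat.find hex := ⟨_, rfl⟩
    have hk1 : (1 + ε) * L ^ 2 ≤ Pw w * sur M c k := by rw [hk]; exact Nat.find_spec hex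
    have hk2 : ∀ k' < k, Pw w * sur M c k' < (1 + ε) * L ^ 2 := fun k' h => not_le.1 (Nat.find_min hex (by rw [← hk]; exact h))
    have hkm : k ≤ m := by rw [hk]; exact Nat.find_min' hex hm
    have d1 := k1 k hkm hk1
    have d2 : (B1.card : ℝ) ≤ ((univ.filter fun i => (surv N k (σ i)).Nonempty).card : ℝ) := by
      have : B1 ⊆ univ.filter fun i => (surv N k (σ i)).Nonempty := by
        intro i hi
        rw [hB1, mem_filter] at hi
        rw [mem_filter]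
        refine ⟨mem_univ i, ?_⟩
        have e1 : k ≤ runS N m (σ i) := by
          by_contra hlt
          have := hk2 _ (not_le.1 hlt)
          linarith [hi.2]
        have e2 : runS N m (σ i) ≠ 0 := by
          intro h0
          rw [h0, sur_zero, Nat.cast_zero, mul_zero] at hi
          have : 0 < (1 + ε) * L ^ 2 := by positivity
          linarith [hi.2]
        have e3 : FreeS N (runS N m (σ i)) (σ i) := Nat.findGreatest_of_ne_zero rfl e2
        exact (freeS_iff N k (σ i)).1 (e3.mono e1)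
      exact_mod_cast card_le_card this
    refine d2.trans (d1.trans ?_)
    apply mul_le_mul_of_nonneg_right _ hι
    rw [Real.rpow_def_of_pos hN0, ← hL]
    rw [div_le_iff₀ (by positivity)] at g3
    have e1 : Real.exp (L * (-(ε / 2))) ≤ Real.exp (-Real.log (2 / ε)) := Real.exp_le_exp.2 (by linarith)
    rwa [Real.exp_neg, Real.exp_log (by positivity), inv_div] at e1
  have c2 : (B2.card : ℝ) ≤ ε / 2 * Fintype.card ι := by
    obtain ⟨k, hk⟩ : ∃ k, k = Nat.findGreatest (fun k => Pw w * sur M c k ≤ (1 - ε / 2) * L ^ 2) m := ⟨_, rfl⟩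
    have h0 : Pw w * sur M c 0 ≤ (1 - ε / 2) * L ^ 2 := by
      rw [sur_zero, Nat.cast_zero, mul_zero]
      apply mul_nonneg (by linarith) (by positivity)
    have hk1 : Pw w * sur M c k ≤ (1 - ε / 2) * L ^ 2 := by
      rw [hk]
      exact Nat.findGreatest_spec (P := fun k => Pw w * sur M c k ≤ (1 - ε / 2) * L ^ 2) (Nat.zero_le m) h0
    have hkm : k ≤ m := by rw [hk]; exact Nat.findGreatest_le m
    have hkm' : k < m := by
      rcases hkm.lt_or_eq with h | h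
      · exact h
      · exfalso
        rw [h] at hk1
        have : 0 < L ^ 2 := by positivity
        nlinarith
    have hk2 : (1 - ε) * L ^ 2 ≤ Pw w * sur M c k := by
      have e1 : ¬ (Pw w * sur M c (k + 1) ≤ (1 - ε / 2) * L ^ 2) :=
        Nat.findGreatest_is_greatest (P := fun k => Pw w * sur M c k ≤ (1 - ε / 2) * L ^ 2) (n := m) (by rw [← hk]; omega) (by omega)
      have e2 : (sur M c (k + 1) : ℝ) ≤ sur M c k + 1 := by exact_mod_cast sur_succ M c k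
      have e3 := mul_le_mul_of_nonneg_left e2 (by linarith : (0 : ℝ) ≤ Pw w)
      rw [not_le] at e1
      nlinarith
    clear hk
    have d1 := k2 k hkm hk1
    refine le_trans ?_ d1
    have : B2 ⊆ univ.filter fun i => ¬ ((N : ℝ) ^ (1 - Pw w * sur M c k / L ^ 2 - ε / 2) ≤ (surv N k (σ i)).card ∧
          ((surv N k (σ i)).card : ℝ) ≤ (N : ℝ) ^ (1 - Pw w * sur M c k / L ^ 2 + ε / 2)) := by
      intro i hi
      rw [hB2, mem_filter] at hi
      rw [mem_filter]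
      refine ⟨mem_univ i, ?_⟩
      rintro ⟨h1, _⟩
      have e1 : (0 : ℝ) ≤ 1 - Pw w * sur M c k / L ^ 2 - ε / 2 := by
        have : Pw w * sur M c k / L ^ 2 ≤ 1 - ε / 2 := by rwa [div_le_iff₀ (by positivity)]
        linarith
      have e2 : (1 : ℝ) ≤ (surv N k (σ i)).card := (Real.one_le_rpow hN1 e1).trans h1
      have e3 : 0 < (surv N k (σ i)).card := by exact_mod_cast e2
      have e4 : FreeS N k (σ i) := (freeS_iff N k (σ i)).2 (card_pos.1 e3)
      have e5 : k ≤ runS N m (σ i) := Nat.le_findGreatest hkm e4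
      have e6 : (sur M c k : ℝ) ≤ sur M c (runS N m (σ i)) := by exact_mod_cast sur_mono M c k _ e5
      have e7 := mul_le_mul_of_nonneg_left e6 (by linarith : (0 : ℝ) ≤ Pw w)
      linarith [hi.2]
    exact_mod_cast card_le_card this
  have c3 : (univ.filter fun i => ε * L ^ 2 < |Pw w * sur M c (runS N m (σ i)) - L ^ 2|) ⊆ B1 ∪ B2 := by
    intro i hs
    rw [mem_filter] at hs
    rw [mem_union, hB1, hB2, mem_filter, mem_filter]
    rcases lt_abs.1 hs.2 with h | h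
    · left
      exact ⟨hs.1, by linarith⟩
    · right
      exact ⟨hs.1, by linarith⟩
  have c4 : (((univ.filter fun i => ε * L ^ 2 < |Pw w * sur M c (runS N m (σ i)) - L ^ 2|)).card : ℝ) ≤ B1.card + B2.card := by
    exact_mod_cast (card_le_card c3).trans (card_union_le B1 B2)
  linarith

/-- perturbed intervals -/
theorem law_iN (ε : ℝ) (hε : 0 < ε) (hε1 : ε ≤ 1) : ∃ w₀ : ℕ, ∀ T a w : ℕ, w₀ ≤ w → ∀ M : ℕ, 1 ≤ M → (∀ p : ℕ, p.Prime → (p ∣ M ↔ p ≤ w)) →
    ∀ᶠ N : ℕ in atTop, ∀ q : ℕ,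
    (N : ℝ) ≤ q * Real.log N ^ a → q ≤ N → ∀ (Δ : ℝ) (m : ℕ) (c b : ℕ → ℕ), 0 ≤ Δ → Δ ≤ Real.exp (-(9 / 4 * Real.log N)) → (∀ j, b j ≤ T * N) →
      ∀ (ι : Type) [Fintype ι] (σ : ι → ℕ → ℕ), Fool Δ m (fun j => cls M (c j) (b j) q) σ →
      (∀ j < m, c j = j) → (1 + ε) * Real.log N ^ 2 ≤ m →
      ((univ.filter fun i => ε * Real.log N ^ 2 < |(runS N m (σ i) : ℝ) - Real.log N ^ 2|).card : ℝ) ≤
        ε * Fintype.card ι := by
  classical
  obtain ⟨w₀, hw₀⟩ := law_N (ε / 2) (by positivity) (by linarith)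
  refine ⟨w₀, fun T a w hw M hM1 hM => ?_⟩
  have hP := one_le_Pw w
  filter_upwards [hw₀ T a w hw M hM1 hM, ev_log 1, ev_log (2 * M / ε)] with N g1 g2 g3 q hq hqN Δ m c b hΔ0 hκ hb ι _ σ hσ hc hm
  have k1 := g1 q hq hqN Δ m c b hΔ0 hκ hb ι σ hσ
  obtain ⟨L, hL⟩ : ∃ L, L = Real.log (N : ℝ) := ⟨_, rfl⟩
  rw [← hL] at g2 g3 hm k1 ⊢
  have hLL : 2 * M ≤ ε * L ^ 2 := by
    rw [div_le_iff₀ hε] at g3
    nlinarith
  have hid : ∀ k ≤ m, |Pw w * sur M c k - k| ≤ M := fun k hk => sur_id w M hM1 hM c k (fun j hj => hc j (by omega))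
  have h1 := (abs_le.1 (hid m le_rfl)).1
  have k2 := k1 (by linarith)
  refine (le_trans ?_ k2).trans ?_
  · have : (univ.filter fun i => ε * L ^ 2 < |(runS N m (σ i) : ℝ) - L ^ 2|) ⊆
        (univ.filter fun i => ε / 2 * L ^ 2 < |Pw w * sur M c (runS N m (σ i)) - L ^ 2|) := by
      intro i hs
      rw [mem_filter] at hs ⊢
      refine ⟨hs.1, ?_⟩
      have h2 := hid (runS N m (σ i)) (Nat.findGreatest_le m)
      have h3 : |(runS N m (σ i) : ℝ) - L ^ 2| ≤ |(runS N m (σ i) : ℝ) - Pw w * sur M c (runS N m (σ i))| +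
        |Pw w * sur M c (runS N m (σ i)) - L ^ 2| := abs_sub_le _ _ _
      rw [abs_sub_comm] at h2
      linarith [hs.2]
    exact_mod_cast card_le_card this
  · apply mul_le_mul_of_nonneg_right _ (Nat.cast_nonneg _)
    linarith

end Run7.h251.NI
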