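import Pool.Agent.Run7.h251.KW.Poly

/-!
# Words in random affine maps (Nisan's generator), part 1: rectangles

For affine maps `h 0, ..., h (k - 1)` of a finite field with `Q` elements and a point `x` let `word k h x j` be the image of `x` under
the composition of the maps `h i` for which the digit `i` of `j` is one. For almost all maps the points `word k h x j`, `j < 2 ^ k`, are
in sets `G j` with the probability `∏ |G j| / Q`, up to `2 ^ k / √Q`.
-/

set_option autoImplicit false

namespace Run7.h251.NI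

open Finset
open Pool.Agent.Run7.h931.RL (cls)
open Run7.h251.KW (cls_eq card_pre)

/-- every rectangle has the right probability, up to `δ` -/
def Fool (δ : ℝ) (m : ℕ) (U : ℕ → Finset ℕ) {ι : Type*} [Fintype ι] (σ : ι → ℕ → ℕ) : Prop :=
  (∀ i, ∀ j < m, σ i j ∈ U j) ∧ ∀ B : ℕ → Finset ℕ, (∀ j < m, B j ⊆ U j) →
    |((univ.filter fun i => ∀ j < m, σ i j ∉ B j).card : ℝ) -
      Fintype.card ι * ∏ j ∈ range m, (1 - (B j).card / (U j).card : ℝ)| ≤ Fintype.card ι * δ

lemma Fool.mono {δ : ℝ} {m k : ℕ} {U : ℕ → Finset ℕ} {ι : Type*} [Fintype ι] {σ : ι → ℕ → ℕ} (h : Fool δ m U σ) (hk : k ≤ m) :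
    Fool δ k U σ := by
  classical
  refine ⟨fun i j hj => h.1 i j (by omega), fun B hB => ?_⟩
  have h1 := h.2 (fun j => if j < k then B j else ∅) (fun j _ => by
    split_ifs with h2
    · exact hB j h2
    · exact empty_subset _)
  have e1 : (univ.filter fun i => ∀ j < m, σ i j ∉ (if j < k then B j else ∅)) = univ.filter fun i => ∀ j < k, σ i j ∉ B j := by
    ext i
    simp only [mem_filter, mem_univ, true_and]
    constructor
    · intro h2 j hj
      have := h2 j (by omega)
      rwa [if_pos hj] at this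
    · intro h2 j _
      split_ifs with h3
      · exact h2 j h3
      · simp
  have e2 : ∏ j ∈ range k, (1 - (B j).card / (U j).card : ℝ) =
      ∏ j ∈ range m, (1 - ((if j < k then B j else ∅ : Finset ℕ)).card / (U j).card : ℝ) := by
    have e3 : ∏ j ∈ range k, (1 - (B j).card / (U j).card : ℝ) =
        ∏ j ∈ range k, (1 - ((if j < k then B j else ∅ : Finset ℕ)).card / (U j).card : ℝ) := by
      apply prod_congr rfl
      intro j hj
      rw [if_pos (mem_range.1 hj)]
    rw [e3]
    apply prod_subset (range_subset_range.2 hk)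
    intro j _ hj
    rw [mem_range] at hj
    rw [if_neg hj, card_empty, Nat.cast_zero, zero_div, sub_zero]
  rw [e2, ← e1]
  exact h1

variable {K : Type} [Field K] [Fintype K]

/-- the image of `x` under the composition of the affine maps `h i` with digit `i` of `j` equal to one -/
def word : (k : ℕ) → (Fin k → K × K) → K → ℕ → K
  | 0, _, x, _ => x
  | k + 1, h, x, j => if j % 2 = 1 then (h 0).1 * word k (fun i => h i.succ) x (j / 2) + (h 0).2
      else word k (fun i => h i.succ) x (j / 2)

/-- pairwise independence -/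
lemma pair_zero (g : K → ℝ) (hg : ∑ y, g y = 0) (x x' : K) (hx : x ≠ x') :
    ∑ a : K, ∑ b : K, g (a * x + b) * g (a * x' + b) = 0 := by
  have h1 : ∀ a : K, ∑ b : K, g (a * x + b) * g (a * x' + b) = ∑ y : K, g y * g (y + a * (x' - x)) := by
    intro a
    refine Fintype.sum_equiv (Equiv.addLeft (a * x)) _ _ (fun b => ?_)
    simp only [Equiv.coe_addLeft]
    rw [show a * x + b + a * (x' - x) = a * x' + b by ring]
  rw [sum_congr rfl fun a _ => h1 a, sum_comm]
  apply sum_eq_zero
  intro y _
  rw [← mul_sum]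
  have h2 : ∑ a : K, g (y + a * (x' - x)) = ∑ z, g z := by
    have hne : x' - x ≠ 0 := sub_ne_zero.2 (Ne.symm hx)
    exact ((Equiv.mulRight₀ (x' - x) hne).trans (Equiv.addLeft y)).sum_comp g
  rw [h2, hg, mul_zero]

/-- the expander mixing lemma for affine maps -/
lemma mixing (U V : Finset K) [DecidableEq K] :
    ∑ a : K, ∑ b : K, |((U.filter fun x => a * x + b ∈ V).card : ℝ) - U.card * V.card / Fintype.card K| ≤
      (Fintype.card K : ℝ) ^ 2 * Real.sqrt (Fintype.card K) := by
  classical
  obtain ⟨Q, hQ⟩ : ∃ Q : ℝ, Q = Fintype.card K := ⟨_, rfl⟩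
  have hQ0 : 0 < Q := by rw [hQ]; exact_mod_cast Fintype.card_pos
  rw [← hQ]
  obtain ⟨g, hg⟩ : ∃ g : K → ℝ, g = fun y => (if y ∈ V then 1 else 0) - V.card / Q := ⟨_, rfl⟩
  have hg0 : ∑ y, g y = 0 := by
    rw [hg]
    simp only
    rw [sum_sub_distrib, sum_const, card_univ, nsmul_eq_mul, ← hQ, sum_ite_mem, univ_inter, sum_const, nsmul_eq_mul, mul_one]
    field_simp
    ring
  have hg1 : ∀ y, g y ^ 2 ≤ 1 := by
    intro y
    have h1 : (0 : ℝ) ≤ V.card / Q := by positivity
    have h2 : (V.card : ℝ) / Q ≤ 1 := by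
      rw [div_le_one hQ0, hQ]
      exact_mod_cast card_le_univ V
    rw [hg]
    simp only
    split_ifs <;> nlinarith
  have h1 : ∀ a b : K, ((U.filter fun x => a * x + b ∈ V).card : ℝ) - U.card * V.card / Q = ∑ x ∈ U, g (a * x + b) := by
    intro a b
    rw [hg]
    simp only
    rw [sum_sub_distrib, sum_const, nsmul_eq_mul, card_filter]
    push_cast
    ring
  have h2 : ∑ a : K, ∑ b : K, (((U.filter fun x => a * x + b ∈ V).card : ℝ) - U.card * V.card / Q) ^ 2 ≤ Q ^ 3 := by
    have e1 : ∑ a : K, ∑ b : K, (((U.filter fun x => a * x + b ∈ V).card : ℝ) - U.card * V.card / Q) ^ 2 =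
        ∑ x ∈ U, ∑ x' ∈ U, ∑ a : K, ∑ b : K, g (a * x + b) * g (a * x' + b) := by
      have e2 : ∀ a b : K, (((U.filter fun x => a * x + b ∈ V).card : ℝ) - U.card * V.card / Q) ^ 2 =
          ∑ x ∈ U, ∑ x' ∈ U, g (a * x + b) * g (a * x' + b) := by
        intro a b
        rw [h1, sq, sum_mul_sum]
      rw [sum_congr rfl fun a _ => sum_congr rfl fun b _ => e2 a b]
      have e3 : ∀ a : K, ∑ b : K, ∑ x ∈ U, ∑ x' ∈ U, g (a * x + b) * g (a * x' + b) =
          ∑ x ∈ U, ∑ x' ∈ U, ∑ b : K, g (a * x + b) * g (a * x' + b) := by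
        intro a
        rw [sum_comm]
        apply sum_congr rfl
        intro x _
        rw [sum_comm]
      rw [sum_congr rfl fun a _ => e3 a, sum_comm]
      apply sum_congr rfl
      intro x _
      rw [sum_comm]
    rw [e1]
    have e4 : ∀ x ∈ U, ∑ x' ∈ U, ∑ a : K, ∑ b : K, g (a * x + b) * g (a * x' + b) ≤ Q ^ 2 := by
      intro x hx
      rw [sum_eq_single_of_mem x hx (fun x' _ hne => pair_zero g hg0 x x' (Ne.symm hne))]
      have e5 : ∑ a : K, ∑ b : K, g (a * x + b) * g (a * x + b) ≤ ∑ a : K, ∑ b : K, (1 : ℝ) := by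
        apply sum_le_sum
        intro a _
        apply sum_le_sum
        intro b _
        have := hg1 (a * x + b)
        nlinarith
      refine e5.trans (le_of_eq ?_)
      rw [sum_const, sum_const, card_univ, nsmul_eq_mul, nsmul_eq_mul, ← hQ]
      ring
    refine (sum_le_sum e4).trans ?_
    rw [sum_const, nsmul_eq_mul]
    have e6 : (U.card : ℝ) ≤ Q := by rw [hQ]; exact_mod_cast card_le_univ U
    calc (U.card : ℝ) * Q ^ 2 ≤ Q * Q ^ 2 := mul_le_mul_of_nonneg_right e6 (by positivity)
      _ = Q ^ 3 := by ring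
  have h3 : (∑ a : K, ∑ b : K, |((U.filter fun x => a * x + b ∈ V).card : ℝ) - U.card * V.card / Q|) ^ 2 ≤ Q ^ 2 * Q ^ 3 := by
    rw [← Fintype.sum_prod_type' (fun a b => |((U.filter fun x => a * x + b ∈ V).card : ℝ) - U.card * V.card / Q|)]
    rw [← Fintype.sum_prod_type' (fun a b => (((U.filter fun x => a * x + b ∈ V).card : ℝ) - U.card * V.card / Q) ^ 2)] at h2
    have e1 := sq_sum_le_card_mul_sum_sq (s := (univ : Finset (K × K)))
      (f := fun z : K × K => |((U.filter fun x => z.1 * x + z.2 ∈ V).card : ℝ) - U.card * V.card / Q|)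
    refine e1.trans ?_
    have e2 : ((univ : Finset (K × K)).card : ℝ) = Q ^ 2 := by
      rw [card_univ, Fintype.card_prod, hQ]
      push_cast
      ring
    rw [e2]
    apply mul_le_mul_of_nonneg_left _ (by positivity)
    refine (sum_le_sum fun z _ => ?_).trans h2
    rw [sq_abs]
  have h4 : Q ^ 2 * Q ^ 3 = (Q ^ 2 * Real.sqrt Q) ^ 2 := by
    rw [mul_pow, Real.sq_sqrt hQ0.le]
    ring
  rw [h4] at h3
  exact (pow_le_pow_iff_left₀ (sum_nonneg fun a _ => sum_nonneg fun b _ => abs_nonneg _) (by positivity) (by norm_num)).1 h3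

/-- products of numbers between zero and one -/
lemma prod_close (n : ℕ) (u v : ℕ → ℝ) (hu : ∀ i < n, 0 ≤ u i ∧ u i ≤ 1) (hv : ∀ i < n, 0 ≤ v i ∧ v i ≤ 1) :
    |∏ i ∈ range n, u i - ∏ i ∈ range n, v i| ≤ ∑ i ∈ range n, |u i - v i| := by
  induction n with
  | zero => simp
  | succ n ih =>
    have ih' := ih (fun i hi => hu i (by omega)) (fun i hi => hv i (by omega))
    rw [prod_range_succ, prod_range_succ, sum_range_succ]
    have h1' : (∏ i ∈ range n, u i) * u n - (∏ i ∈ range n, v i) * v n =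
        (∏ i ∈ range n, u i - ∏ i ∈ range n, v i) * u n + (∏ i ∈ range n, v i) * (u n - v n) := by ring
    rw [h1']
    refine (abs_add_le _ _).trans ?_
    rw [abs_mul, abs_mul]
    have h2 := hu n (by omega)
    have h3 : 0 ≤ ∏ i ∈ range n, v i := prod_nonneg fun i hi => (hv i (by have := mem_range.1 hi; omega)).1
    have h4 : ∏ i ∈ range n, v i ≤ 1 :=
      prod_le_one (fun i hi => (hv i (by have := mem_range.1 hi; omega)).1) fun i hi => (hv i (by have := mem_range.1 hi; omega)).2
    rw [abs_of_nonneg h2.1, abs_of_nonneg h3]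
    have h5 := abs_nonneg (∏ i ∈ range n, u i - ∏ i ∈ range n, v i)
    have h6 := abs_nonneg (u n - v n)
    have h7 : |∏ i ∈ range n, u i - ∏ i ∈ range n, v i| * u n ≤ |∏ i ∈ range n, u i - ∏ i ∈ range n, v i| :=
      mul_le_of_le_one_right h5 h2.2
    have h8 : (∏ i ∈ range n, v i) * |u n - v n| ≤ |u n - v n| := mul_le_of_le_one_left h6 h4
    linarith

lemma prod_two (n : ℕ) (f : ℕ → ℝ) : ∏ j ∈ range (2 * n), f j = ∏ i ∈ range n, (f (2 * i) * f (2 * i + 1)) := by
  induction n with
  | zero => simp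
  | succ n ih =>
    rw [show 2 * (n + 1) = 2 * n + 1 + 1 by ring, prod_range_succ, prod_range_succ, ih, prod_range_succ]
    ring

lemma all_two (n : ℕ) (P : ℕ → Prop) : (∀ j < 2 * n, P j) ↔ ∀ i < n, P (2 * i) ∧ P (2 * i + 1) := by
  constructor
  · intro h i hi
    exact ⟨h _ (by omega), h _ (by omega)⟩
  · intro h j hj
    rcases Nat.even_or_odd' j with ⟨i, hi | hi⟩
    · rw [hi]
      exact (h i (by omega)).1
    · rw [hi]
      exact (h i (by omega)).2

/-- the probability of a rectangle -/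
theorem rect [DecidableEq K] (k : ℕ) : ∀ G : ℕ → Finset K,
    ∑ h : Fin k → K × K, |((univ.filter fun x => ∀ j < 2 ^ k, word k h x j ∈ G j).card : ℝ) / Fintype.card K -
      ∏ j ∈ range (2 ^ k), ((G j).card / Fintype.card K : ℝ)| ≤
      ((2 : ℝ) ^ k - 1) / Real.sqrt (Fintype.card K) * ((Fintype.card K : ℝ) ^ 2) ^ k := by
  classical
  obtain ⟨Q, hQ⟩ : ∃ Q : ℝ, Q = Fintype.card K := ⟨_, rfl⟩
  have hQ0 : 0 < Q := by rw [hQ]; exact_mod_cast Fintype.card_pos
  have hsQ : 0 < Real.sqrt Q := Real.sqrt_pos.2 hQ0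
  rw [← hQ]
  induction k with
  | zero =>
    intro G
    simp only [pow_zero, sub_self, zero_div, zero_mul]
    apply le_of_eq
    apply sum_eq_zero
    intro h _
    rw [prod_range_one]
    have : ((univ.filter fun x => ∀ j < 1, word 0 h x j ∈ G j)).card = (G 0).card := by
      congr 1
      ext x
      simp [word]
    have this' : (((univ.filter fun x => ∀ j < 1, word 0 h x j ∈ G j)).card : ℝ) = ((G 0).card : ℝ) := by exact_mod_cast this
    rw [← this', abs_eq_zero, sub_eq_zero]
    congr!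
  | succ k ih =>
    intro G
    obtain ⟨G', hG'⟩ : ∃ G' : K × K → ℕ → Finset K, G' = fun z i => (G (2 * i)).filter fun y => z.1 * y + z.2 ∈ G (2 * i + 1) := ⟨_, rfl⟩
    have hpow : 2 ^ (k + 1) = 2 * 2 ^ k := by rw [pow_succ]; ring
    have hset : ∀ (z : K × K) (h' : Fin k → K × K),
        (univ.filter fun x => ∀ j < 2 ^ (k + 1), word (k + 1) (Fin.cons z h' : Fin (k + 1) → K × K) x j ∈ G j) =
          univ.filter fun x => ∀ i < 2 ^ k, word k h' x i ∈ G' z i := by
      intro z h'
      ext x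
      simp only [mem_filter, mem_univ, true_and]
      rw [hpow, all_two]
      apply forall_congr'
      intro i
      apply imp_congr_right
      intro _
      rw [hG']
      simp only [mem_filter]
      have e1 : word (k + 1) (Fin.cons z h' : Fin (k + 1) → K × K) x (2 * i) = word k h' x i := by
        simp only [word]
        rw [if_neg (by omega), show 2 * i / 2 = i by omega]
        rfl
      have e2 : word (k + 1) (Fin.cons z h' : Fin (k + 1) → K × K) x (2 * i + 1) = z.1 * word k h' x i + z.2 := by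
        simp only [word]
        rw [if_pos (by omega), show (2 * i + 1) / 2 = i by omega]
        rfl
      rw [e1, e2]
    rw [← (Fin.consEquiv (fun _ : Fin (k + 1) => K × K)).sum_comp, Fintype.sum_prod_type]
    have hstep : ∀ z : K × K, ∑ h' : Fin k → K × K, |((univ.filter fun x => ∀ j < 2 ^ (k + 1),
        word (k + 1) ((Fin.consEquiv (fun _ : Fin (k + 1) => K × K)) (z, h')) x j ∈ G j).card : ℝ) / Q -
          ∏ j ∈ range (2 ^ (k + 1)), ((G j).card / Q : ℝ)| ≤
        ((2 : ℝ) ^ k - 1) / Real.sqrt Q * (Q ^ 2) ^ k +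
          (Q ^ 2) ^ k * ∑ i ∈ range (2 ^ k), |((G' z i).card / Q : ℝ) - (G (2 * i)).card / Q * ((G (2 * i + 1)).card / Q)| := by
      intro z
      have e0 : ∀ h' : Fin k → K × K, |((univ.filter fun x => ∀ j < 2 ^ (k + 1),
          word (k + 1) ((Fin.consEquiv (fun _ : Fin (k + 1) => K × K)) (z, h')) x j ∈ G j).card : ℝ) / Q -
          ∏ j ∈ range (2 ^ (k + 1)), ((G j).card / Q : ℝ)| ≤
          |((univ.filter fun x => ∀ i < 2 ^ k, word k h' x i ∈ G' z i).card : ℝ) / Q - ∏ i ∈ range (2 ^ k), ((G' z i).card / Q : ℝ)| +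
          ∑ i ∈ range (2 ^ k), |((G' z i).card / Q : ℝ) - (G (2 * i)).card / Q * ((G (2 * i + 1)).card / Q)| := by
        intro h'
        have e1 : (univ.filter fun x => ∀ j < 2 ^ (k + 1),
          word (k + 1) ((Fin.consEquiv (fun _ : Fin (k + 1) => K × K)) (z, h')) x j ∈ G j) =
            univ.filter fun x => ∀ i < 2 ^ k, word k h' x i ∈ G' z i := hset z h'
        rw [e1, hpow, prod_two]
        refine (abs_sub_le _ (∏ i ∈ range (2 ^ k), ((G' z i).card / Q : ℝ)) _).trans ?_
        have hle : ∀ S : Finset K, 0 ≤ (S.card : ℝ) / Q ∧ (S.card : ℝ) / Q ≤ 1 := by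
          intro S
          refine ⟨by positivity, ?_⟩
          rw [div_le_one hQ0, hQ]
          exact_mod_cast card_le_univ S
        have e2 := prod_close (2 ^ k) (fun i => ((G' z i).card / Q : ℝ))
          (fun i => (G (2 * i)).card / Q * ((G (2 * i + 1)).card / Q)) (fun i _ => hle _) (fun i _ =>
            ⟨mul_nonneg (hle _).1 (hle _).1, mul_le_one₀ (hle _).2 (hle _).1 (hle _).2⟩)
        linarith
      refine (sum_le_sum fun h' _ => e0 h').trans ?_
      rw [sum_add_distrib, sum_const, card_univ, Fintype.card_fun, Fintype.card_fin, Fintype.card_prod, nsmul_eq_mul]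
      have e3 : (((Fintype.card K * Fintype.card K) ^ k : ℕ) : ℝ) = (Q ^ 2) ^ k := by
        rw [hQ]
        push_cast
        ring
      rw [e3]
      exact add_le_add (ih (G' z)) le_rfl
    refine (sum_le_sum fun z _ => hstep z).trans ?_
    rw [sum_add_distrib, sum_const, card_univ, Fintype.card_prod, nsmul_eq_mul, ← mul_sum, sum_comm]
    have e4 : ∀ i ∈ range (2 ^ k), ∑ z : K × K, |((G' z i).card / Q : ℝ) - (G (2 * i)).card / Q * ((G (2 * i + 1)).card / Q)| ≤
        Q ^ 2 / Real.sqrt Q := by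
      intro i _
      have e5 := mixing (G (2 * i)) (G (2 * i + 1))
      rw [← hQ] at e5
      rw [Fintype.sum_prod_type]
      have e6 : ∀ a b : K, |((G' (a, b) i).card / Q : ℝ) - (G (2 * i)).card / Q * ((G (2 * i + 1)).card / Q)| =
          |(((G (2 * i)).filter fun x => a * x + b ∈ G (2 * i + 1)).card : ℝ) - (G (2 * i)).card * (G (2 * i + 1)).card / Q| / Q := by
        intro a b
        rw [← abs_of_pos hQ0, ← abs_div, abs_of_pos hQ0, hG']
        congr 1
        simp only
        field_simp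
      rw [sum_congr rfl fun a _ => sum_congr rfl fun b _ => e6 a b]
      rw [sum_congr rfl fun a _ => (sum_div _ _ _).symm, ← sum_div, div_le_div_iff₀ hQ0 hsQ]
      have e7 := mul_le_mul_of_nonneg_right e5 hsQ.le
      refine e7.trans (le_of_eq ?_)
      rw [mul_assoc, Real.mul_self_sqrt hQ0.le]
    have e8 := mul_le_mul_of_nonneg_left (sum_le_sum e4) (by positivity : (0 : ℝ) ≤ (Q ^ 2) ^ k)
    rw [sum_const, card_range, nsmul_eq_mul] at e8
    have e9 : ((Fintype.card K * Fintype.card K : ℕ) : ℝ) = Q ^ 2 := by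
      rw [hQ]
      push_cast
      ring
    rw [e9]
    refine (add_le_add le_rfl e8).trans (le_of_eq ?_)
    push_cast
    field_simp
    ring

end Run7.h251.NI
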