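import Pool.Agent.Run7.h251.KW.OneTwo
import Pool.Agent.Run7.h251.NI.Gen

/-!
# Words in random affine maps, part 3: Chebyshev's inequality

As in `Run7.h251.KW.Cheb`, with the property `Fool` in place of limited independence.
-/

set_option autoImplicit false

namespace Run7.h251.NI

open Finset
open Pool.Agent.Run7.h931.RS (wt wt_nonneg wt_pair)
open Run7.h251.KW (wt_eq ind_prod wt_two one_id)

theorem chebN {δ : ℝ} {m R : ℕ} {U : ℕ → Finset ℕ} {ι : Type*} [Fintype ι] {σ : ι → ℕ → ℕ} (hσ : Fool δ m U σ) (hδ0 : 0 ≤ δ)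
    (hU : ∀ j < m, 0 < (U j).card) (A : ℕ → ℕ → Finset ℕ) (hA : ∀ k j, A k j ⊆ U j)
    (hlt : ∀ k < R, ∀ j < m, (A k j).card < (U j).card) (e : ℕ → ℕ → ℝ)
    (htwo : ∀ k < R, ∀ k' < R, ∏ j : Fin m, ∑ v ∈ U j, wt (U j) (A k j) v * wt (U j) (A k' j) v ≤
      e k k' * ∏ j : Fin m, ((U j).card : ℝ)) (η : ℝ)
    (he : ∑ k ∈ range R, ∑ k' ∈ range R, e k k' ≤ (1 + η) * (R : ℝ) ^ 2) (C τ : ℝ) (hC1 : 1 ≤ C)
    (hC : ∀ k < R, ∏ j : Fin m, ((U j).card : ℝ) / ((U j).card - (A k j).card) ≤ C)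
    (hτ : C ^ 2 * δ ≤ τ) :
    ((univ.filter fun i => 1 / 2 * (R : ℝ) < |∑ k ∈ range R, ∏ j : Fin m, wt (U j) (A k j) (σ i j) - R|).card : ℝ) *
      (1 / 2) ^ 2 * (R : ℝ) ^ 2 ≤ (η + 3 * τ) * (R : ℝ) ^ 2 * Fintype.card ι := by
  classical
  obtain ⟨ck, hck⟩ : ∃ ck : ℕ → ℝ, ck = fun k => ∏ j : Fin m, ((U j).card : ℝ) / ((U j).card - (A k j).card) := ⟨_, rfl⟩
  have hck' : ∀ k, ∏ j : Fin m, ((U j).card : ℝ) / ((U j).card - (A k j).card) = ck k := fun k => by rw [hck]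
  have hUr : ∀ j : Fin m, (0 : ℝ) < (U j).card := fun j => by exact_mod_cast hU j j.2
  have hsub : ∀ k < R, ∀ j : Fin m, (0 : ℝ) < (U j).card - (A k j).card := fun k hk j => by
    have : ((A k j).card : ℝ) < (U j).card := by exact_mod_cast hlt k hk j j.2
    linarith
  have hc0 : ∀ k < R, 0 ≤ ck k := fun k hk => by
    rw [← hck']
    exact prod_nonneg fun j _ => div_nonneg (Nat.cast_nonneg _) (hsub k hk j).le
  have hcC : ∀ k < R, ck k ≤ C := fun k hk => by rw [← hck']; exact hC k hk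
  obtain ⟨nh, hnh⟩ : ∃ nh : (ℕ → Finset ℕ) → ℝ, nh = fun B => ((univ.filter fun i => ∀ j < m, σ i j ∉ B j).card : ℝ) := ⟨_, rfl⟩
  have hι : (0 : ℝ) ≤ Fintype.card ι := Nat.cast_nonneg _
  obtain ⟨I, hI⟩ : ∃ I : ℝ, I = Fintype.card ι := ⟨_, rfl⟩
  rw [← hI] at hι ⊢
  -- one weight
  have hw : ∀ k, ∀ i, ∏ j : Fin m, wt (U j) (A k j) (σ i j) = ck k * (if (∀ j < m, σ i j ∉ A k j) then 1 else 0) := by
    intro k i
    rw [← ind_prod (m := m) (fun j => σ i j ∈ A k j), ← hck', ← prod_mul_distrib]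
    apply prod_congr rfl
    intro j _
    exact wt_eq (U j) (A k j) (σ i j) (hσ.1 i j j.2)
  have hcount : ∀ B : ℕ → Finset ℕ, ∑ i, (if (∀ j < m, σ i j ∉ B j) then (1 : ℝ) else 0) = nh B := by
    intro B
    rw [hnh]
    simp only
    rw [card_filter]
    push_cast
    rfl
  -- first moments
  have hone : ∀ k < R, I * (1 - τ) ≤ ck k * nh (A k) := by
    intro k hk
    have h1 := hσ.2 (A k) (fun j _ => hA k j)
    have h2 : ck k * ∏ j ∈ range m, (1 - (A k j).card / (U j).card : ℝ) = 1 := by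
      rw [Finset.prod_range, ← hck', ← prod_mul_distrib]
      apply prod_eq_one
      intro j _
      exact one_id _ _ (hUr j) (hsub k hk j)
    have h3 := (abs_le.1 h1).1
    rw [← hI] at h3
    have h5 : ((univ.filter fun i => ∀ j < m, σ i j ∉ A k j).card : ℝ) = nh (A k) := by rw [hnh]
    rw [h5] at h3
    have h6 := mul_le_mul_of_nonneg_left (show I * ∏ j ∈ range m, (1 - (A k j).card / (U j).card : ℝ) -
      I * δ ≤ nh (A k) by linarith) (hc0 k hk)
    have h7 : ck k * (I * ∏ j ∈ range m, (1 - (A k j).card / (U j).card : ℝ) - I * δ) =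
        I * (ck k * ∏ j ∈ range m, (1 - (A k j).card / (U j).card : ℝ)) - I * (ck k * δ) := by ring
    rw [h7, h2] at h6
    have h8 : ck k * δ ≤ τ := by
      refine le_trans ?_ hτ
      apply mul_le_mul_of_nonneg_right _ hδ0
      have := hcC k hk
      nlinarith
    have h9 := mul_le_mul_of_nonneg_left h8 hι
    linarith
  -- second moments
  have htwo' : ∀ k < R, ∀ k' < R, ck k * ck k' * nh (fun j => A k j ∪ A k' j) ≤ I * (e k k' + τ) := by
    intro k hk k' hk'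
    have h1 := hσ.2 (fun j => A k j ∪ A k' j) (fun j _ => union_subset (hA k j) (hA k' j))
    have h2 := htwo k hk k' hk'
    have h3 : ∏ j : Fin m, ∑ v ∈ U j, wt (U j) (A k j) v * wt (U j) (A k' j) v =
        (ck k * ck k' * ∏ j ∈ range m, (1 - (A k j ∪ A k' j).card / (U j).card : ℝ)) * ∏ j : Fin m, ((U j).card : ℝ) := by
      rw [Finset.prod_range, ← hck', ← hck', ← prod_mul_distrib, ← prod_mul_distrib, ← prod_mul_distrib]
      apply prod_congr rfl
      intro j _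
      exact wt_two (U j) (A k j) (A k' j) (hA k j) (hA k' j) (hlt k hk j j.2) (hlt k' hk' j j.2)
    rw [h3] at h2
    have h4 : 0 < ∏ j : Fin m, ((U j).card : ℝ) := prod_pos fun j _ => hUr j
    have h5 := le_of_mul_le_mul_right h2 h4
    have h6 := (abs_le.1 h1).2
    rw [← hI] at h6
    have h8 : ((univ.filter fun i => ∀ j < m, σ i j ∉ A k j ∪ A k' j).card : ℝ) = nh (fun j => A k j ∪ A k' j) := by rw [hnh]
    rw [h8] at h6
    have hcc : 0 ≤ ck k * ck k' := mul_nonneg (hc0 k hk) (hc0 k' hk')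
    have h9 := mul_le_mul_of_nonneg_left (show nh (fun j => A k j ∪ A k' j) ≤
      I * ∏ j ∈ range m, (1 - (A k j ∪ A k' j).card / (U j).card : ℝ) + I * δ by linarith) hcc
    have h10 : ck k * ck k' * δ ≤ τ := by
      refine le_trans ?_ hτ
      apply mul_le_mul_of_nonneg_right _ hδ0
      rw [sq]
      exact mul_le_mul (hcC k hk) (hcC k' hk') (hc0 k' hk') (by linarith)
    have h11 := mul_le_mul_of_nonneg_left h10 hι
    have h12 := mul_le_mul_of_nonneg_left h5 hι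
    calc ck k * ck k' * nh (fun j => A k j ∪ A k' j) ≤ _ := h9
      _ = I * (ck k * ck k' * ∏ j ∈ range m, (1 - (A k j ∪ A k' j).card / (U j).card : ℝ)) +
          I * (ck k * ck k' * δ) := by ring
      _ ≤ _ := by rw [mul_add]; linarith
  obtain ⟨Z, hZ⟩ : ∃ Z : ι → ℝ, Z = fun i => ∑ k ∈ range R, ck k * (if (∀ j < m, σ i j ∉ A k j) then 1 else 0) := ⟨_, rfl⟩
  have hZ' : ∀ i, ∑ k ∈ range R, ∏ j : Fin m, wt (U j) (A k j) (σ i j) = Z i := fun i => by
    rw [hZ]
    exact sum_congr rfl fun k _ => hw k i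
  have hZ1 : I * (1 - τ) * R ≤ ∑ i, Z i := by
    rw [hZ, sum_comm]
    have h1 : ∀ k ∈ range R, I * (1 - τ) ≤ ∑ i, ck k * (if (∀ j < m, σ i j ∉ A k j) then (1 : ℝ) else 0) := by
      intro k hk
      rw [mem_range] at hk
      rw [← mul_sum, hcount]
      exact hone k hk
    have := sum_le_sum h1
    rw [sum_const, card_range, nsmul_eq_mul] at this
    linarith
  have hZ2 : ∑ i, Z i ^ 2 ≤ I * ((1 + η) * (R : ℝ) ^ 2 + τ * (R : ℝ) ^ 2) := by
    have h1 : ∀ i, Z i ^ 2 = ∑ k ∈ range R, ∑ k' ∈ range R, ck k * ck k' * (if (∀ j < m, σ i j ∉ A k j ∪ A k' j) then 1 else 0) := by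
      intro i
      rw [hZ]
      simp only
      rw [sq, sum_mul_sum]
      apply sum_congr rfl
      intro k _
      apply sum_congr rfl
      intro k' _
      by_cases h1 : ∀ j < m, σ i j ∉ A k j
      · by_cases h2 : ∀ j < m, σ i j ∉ A k' j
        · rw [if_pos h1, if_pos h2, if_pos (fun j hj => by rw [mem_union]; exact not_or.2 ⟨h1 j hj, h2 j hj⟩)]
          ring
        · rw [if_pos h1, if_neg h2, if_neg (fun h => h2 fun j hj hh => h j hj (mem_union_right _ hh))]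
          ring
      · have h3 : ¬ ∀ j < m, σ i j ∉ A k j ∪ A k' j := fun h => h1 fun j hj hh => h j hj (mem_union_left _ hh)
        rw [if_neg h1, if_neg h3]
        ring
    rw [sum_congr rfl fun i _ => h1 i, sum_comm]
    have h2 : ∀ k ∈ range R, ∑ i, ∑ k' ∈ range R, ck k * ck k' * (if (∀ j < m, σ i j ∉ A k j ∪ A k' j) then (1 : ℝ) else 0) ≤
        ∑ k' ∈ range R, I * (e k k' + τ) := by
      intro k hk
      rw [mem_range] at hk
      rw [sum_comm]
      apply sum_le_sum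
      intro k' hk'
      rw [mem_range] at hk'
      rw [← mul_sum, hcount (fun j => A k j ∪ A k' j)]
      exact htwo' k hk k' hk'
    refine (sum_le_sum h2).trans ?_
    have h3 : ∑ k ∈ range R, ∑ k' ∈ range R, I * (e k k' + τ) = I * (∑ k ∈ range R, ∑ k' ∈ range R, e k k' + τ * (R : ℝ) ^ 2) := by
      have : ∀ k ∈ range R, ∑ k' ∈ range R, I * (e k k' + τ) = I * (∑ k' ∈ range R, e k k' + R * τ) := by
        intro k _
        rw [← mul_sum, sum_add_distrib, sum_const, card_range, nsmul_eq_mul]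
      rw [sum_congr rfl this, ← mul_sum, sum_add_distrib, sum_const, card_range, nsmul_eq_mul]
      ring
    rw [h3]
    apply mul_le_mul_of_nonneg_left _ hι
    linarith
  have hZ3 : ∑ i, (Z i - R) ^ 2 ≤ (η + 3 * τ) * (R : ℝ) ^ 2 * I := by
    have h1 : ∑ i, (Z i - (R : ℝ)) ^ 2 = ∑ i, Z i ^ 2 - 2 * R * ∑ i, Z i + I * (R : ℝ) ^ 2 := by
      have : ∀ i, (Z i - (R : ℝ)) ^ 2 = Z i ^ 2 - 2 * R * Z i + (R : ℝ) ^ 2 := fun i => by ring
      rw [sum_congr rfl fun i _ => this i, sum_add_distrib, sum_sub_distrib, ← mul_sum, sum_const, card_univ, nsmul_eq_mul, ← hI]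
    rw [h1]
    have hR0 : (0 : ℝ) ≤ R := Nat.cast_nonneg R
    have h2 := mul_le_mul_of_nonneg_left hZ1 (by positivity : (0 : ℝ) ≤ 2 * R)
    nlinarith
  have hfin : ((univ.filter fun i => 1 / 2 * (R : ℝ) < |Z i - R|).card : ℝ) * ((1 / 2) ^ 2 * (R : ℝ) ^ 2) ≤ ∑ i, (Z i - R) ^ 2 := by
    rw [← nsmul_eq_mul, ← sum_const]
    refine le_trans (sum_le_sum (fun i hi => ?_)) (sum_le_sum_of_subset_of_nonneg (filter_subset _ _) fun i _ _ => sq_nonneg _)
    rw [mem_filter] at hi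
    rw [← sq_abs (Z i - (R : ℝ)), ← mul_pow]
    exact pow_le_pow_left₀ (by positivity) hi.2.le 2
  simp only [hZ']
  rw [mul_assoc]
  exact hfin.trans hZ3

end Run7.h251.NI
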