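import Pool.Agent.Run7.h251.KW.OneTwo
import Pool.Agent.Run7.h251.NI.Cheb

/-!
# Words in random affine maps, part 4: above the threshold
-/

set_option autoImplicit false

namespace Run7.h251.NI

open Finset Filter
open Pool.Agent.Run7.h931.RS (Pw Fw one_le_Pw one_le_Fw wt wt_nonneg ev_log sv sharp)
open Pool.Agent.Run7.h931.RL (Cr cls hitc hitc_sub lft sur sur_le sur_at lf lf_add lft_eq Zr Zr_le rest rest_at rest_eq)
open Run7.h251.KW (hit_lo surv surv_sv)

/-- the number of the sequences of the family for which `n` survives -/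
theorem firstN (T a w M : ℕ) (hM1 : 1 ≤ M) (hM : ∀ p : ℕ, p.Prime → (p ∣ M ↔ p ≤ w)) : ∃ K : ℝ, 1 ≤ K ∧ ∀ᶠ N : ℕ in atTop, ∀ q : ℕ,
    (N : ℝ) ≤ q * Real.log N ^ a → q ≤ N → ∀ (δ : ℝ) (m : ℕ) (c b : ℕ → ℕ), (∀ j, b j ≤ T * N) →
      ∀ (ι : Type) [Fintype ι] (σ : ι → ℕ → ℕ), Fool δ m (fun j => cls M (c j) (b j) q) σ →
      ∀ n : ℕ, n ≤ N → ∀ t : ℕ, t ≤ lft M c m n →
      ((univ.filter fun i => ∀ j < m, ¬ (n + σ i j).Prime).card : ℝ) ≤ Fintype.card ι *
        (Real.exp (-(t * (Pw w / Real.log N * (1 - K / Real.log N)))) + δ) := by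
  classical
  obtain ⟨K, hK, h1⟩ := hit_lo T a w M hM1 hM
  refine ⟨K, hK, ?_⟩
  filter_upwards [h1, ev_log (K + 1)] with N g1 g3 q hq hqN δ m c b hb ι _ σ hσ n hn t ht
  have g1' := fun j => g1 q hq hqN (c j) (b j) (hb j)
  obtain ⟨L, hL⟩ : ∃ L, L = Real.log (N : ℝ) := ⟨_, rfl⟩
  rw [← hL] at g1' g3 ⊢
  have hL0 : 0 < L := by linarith
  have hP := one_le_Pw w
  obtain ⟨τ, hτ⟩ : ∃ τ, τ = Pw w / L * (1 - K / L) := ⟨_, rfl⟩
  rw [← hτ] at g1' ⊢
  have hKL : K / L ≤ 1 := by rw [div_le_one hL0]; linarith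
  have hτ0 : 0 ≤ τ := by rw [hτ]; exact mul_nonneg (by positivity) (by linarith)
  have hτP : τ ≤ Pw w / L := by
    rw [hτ]
    apply mul_le_of_le_one_right (by positivity)
    have : 0 ≤ K / L := by positivity
    linarith
  have hUr : ∀ j, L ^ 3 ≤ ((cls M (c j) (b j) q).card : ℝ) := fun j => (g1' j).1
  have hU0 : ∀ j, (0 : ℝ) < ((cls M (c j) (b j) q).card : ℝ) := fun j => lt_of_lt_of_le (by positivity) (hUr j)
  obtain ⟨J, hJ1, hJ2⟩ := Finset.exists_subset_card_eq ht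
  have hJ3 : ∀ j ∈ J, j < m ∧ (n + c j).Coprime M := by
    intro j hj
    have := hJ1 hj
    rw [mem_filter, mem_range] at this
    exact this
  have hex : ∀ j, ∃ B : Finset ℕ, j ∈ J → B ⊆ hitc M (c j) (b j) q n ∧ B.card = ⌈τ * (cls M (c j) (b j) q).card⌉₊ := by
    intro j
    by_cases hj : j ∈ J
    · obtain ⟨B, hB1, hB2⟩ := Finset.exists_subset_card_eq (s := hitc M (c j) (b j) q n)
        (n := ⌈τ * (cls M (c j) (b j) q).card⌉₊) (Nat.ceil_le.2 ((g1' j).2 n hn (hJ3 j hj).2))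
      exact ⟨B, fun _ => ⟨hB1, hB2⟩⟩
    · exact ⟨∅, fun h => absurd h hj⟩
  choose B₀ hB₀ using hex
  obtain ⟨B, hB⟩ : ∃ B : ℕ → Finset ℕ, B = fun j => if j ∈ J then B₀ j else ∅ := ⟨_, rfl⟩
  have hBs : ∀ j < m, B j ⊆ cls M (c j) (b j) q := by
    intro j _
    rw [hB]
    simp only
    split_ifs with hj
    · exact (hB₀ j hj).1.trans (hitc_sub _ _ _ _ _)
    · exact empty_subset _
  have hJm : J ⊆ range m := fun j hj => mem_range.2 (hJ3 j hj).1
  have htr := hσ.2 B hBs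
  have e1 : ∀ j ∈ J, τ ≤ ((B j).card : ℝ) / (cls M (c j) (b j) q).card ∧
      ((B j).card : ℝ) / (cls M (c j) (b j) q).card ≤ Pw w / L + 1 / L ^ 3 := by
    intro j hj
    have f1 : B j = B₀ j := by rw [hB]; simp only; rw [if_pos hj]
    rw [f1, (hB₀ j hj).2]
    have f2 := Nat.le_ceil (τ * ((cls M (c j) (b j) q).card : ℝ))
    have f3 := (Nat.ceil_lt_add_one (mul_nonneg hτ0 (hU0 j).le)).le
    constructor
    · rw [le_div_iff₀ (hU0 j)]
      exact f2
    · rw [div_le_iff₀ (hU0 j)]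
      have f4 : 1 ≤ 1 / L ^ 3 * ((cls M (c j) (b j) q).card : ℝ) := by
        rw [div_mul_eq_mul_div, one_mul, le_div_iff₀ (by positivity), one_mul]
        exact hUr j
      have f5 := mul_le_mul_of_nonneg_right hτP (hU0 j).le
      nlinarith
  have e0 : ∀ j ∈ range m, j ∉ J → ((B j).card : ℝ) / (cls M (c j) (b j) q).card = 0 := by
    intro j _ hj
    have f1 : B j = ∅ := by rw [hB]; simp only; rw [if_neg hj]
    rw [f1, card_empty, Nat.cast_zero, zero_div]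
  have e3 : ∏ j ∈ range m, (1 - ((B j).card : ℝ) / (cls M (c j) (b j) q).card) ≤ Real.exp (-(t * τ)) := by
    rw [← prod_subset hJm (fun j h1 h2 => by rw [e0 j h1 h2, sub_zero])]
    calc ∏ j ∈ J, (1 - ((B j).card : ℝ) / (cls M (c j) (b j) q).card) ≤ ∏ _j ∈ J, Real.exp (-τ) := by
          apply Finset.prod_le_prod
          · intro j hj
            have : ((B j).card : ℝ) ≤ (cls M (c j) (b j) q).card := by exact_mod_cast card_le_card (hBs j (hJ3 j hj).1)
            have := (div_le_one (hU0 j)).2 this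
            linarith
          · intro j hj
            have f1 := Real.add_one_le_exp (-τ)
            have f2 := (e1 j hj).1
            linarith
      _ = _ := by
          rw [prod_const, hJ2, ← Real.exp_nat_mul]
          congr 1
          ring
  have hι : (0 : ℝ) ≤ Fintype.card ι := Nat.cast_nonneg _
  have e4 : ((univ.filter fun i => ∀ j < m, ¬ (n + σ i j).Prime).card : ℝ) ≤
      ((univ.filter fun i => ∀ j < m, σ i j ∉ B j).card : ℝ) := by
    have : (univ.filter fun i => ∀ j < m, ¬ (n + σ i j).Prime) ⊆ (univ.filter fun i => ∀ j < m, σ i j ∉ B j) := by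
      intro i hi
      rw [mem_filter] at hi ⊢
      refine ⟨mem_univ i, fun j hj hmem => ?_⟩
      rw [hB] at hmem
      simp only at hmem
      by_cases hjJ : j ∈ J
      · rw [if_pos hjJ] at hmem
        have := (hB₀ j hjJ).1 hmem
        unfold hitc at this
        rw [mem_filter] at this
        exact hi.2 j hj this.2
      · rw [if_neg hjJ] at hmem
        simp at hmem
    exact_mod_cast card_le_card this
  have e5 := (abs_le.1 htr).2
  have e6 := mul_le_mul_of_nonneg_left e3 hι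
  rw [mul_add]
  linarith


/-- the number of survivors, on average -/
theorem meanN (T a w M : ℕ) (hM1 : 1 ≤ M) (hM : ∀ p : ℕ, p.Prime → (p ∣ M ↔ p ≤ w)) : ∃ K : ℝ, 1 ≤ K ∧ ∀ᶠ N : ℕ in atTop, ∀ q : ℕ,
    (N : ℝ) ≤ q * Real.log N ^ a → q ≤ N → ∀ (δ : ℝ) (m : ℕ) (c b : ℕ → ℕ), (∀ j, b j ≤ T * N) →
      ∀ (ι : Type) [Fintype ι] (σ : ι → ℕ → ℕ), Fool δ m (fun j => cls M (c j) (b j) q) σ →
      ∀ t : ℕ, t ≤ sur M c m → ∑ i, ((surv N m (σ i)).card : ℝ) ≤ N * (Fintype.card ι *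
        (Real.exp (-(t * (Pw w / Real.log N * (1 - K / Real.log N)))) + δ)) := by
  classical
  obtain ⟨K, hK, h1⟩ := firstN T a w M hM1 hM
  refine ⟨K, hK, ?_⟩
  filter_upwards [h1] with N g1 q hq hqN δ m c b hb ι _ σ hσ t ht
  have h2 : ∑ i, ((surv N m (σ i)).card : ℝ) = ∑ n ∈ Icc 1 N, ((univ.filter fun i => ∀ j < m, ¬ (n + σ i j).Prime).card : ℝ) := by
    have e1 : ∀ i, ((surv N m (σ i)).card : ℝ) = ∑ n ∈ Icc 1 N, if (∀ j < m, ¬ (n + σ i j).Prime) then (1 : ℝ) else 0 := by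
      intro i
      unfold surv
      rw [card_filter]
      push_cast
      rfl
    rw [sum_congr rfl fun i _ => e1 i, sum_comm]
    apply sum_congr rfl
    intro n _
    rw [card_filter]
    push_cast
    rfl
  rw [h2]
  have h3 := sum_le_sum fun n (hn : n ∈ Icc 1 N) => g1 q hq hqN δ m c b hb ι σ hσ n (mem_Icc.1 hn).2 t
    (ht.trans (sur_le M c m n))
  refine h3.trans (le_of_eq ?_)
  rw [sum_const, Nat.card_Icc, Nat.add_sub_cancel, nsmul_eq_mul]

/-- above the threshold -/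
theorem one_N (T a w M : ℕ) (hM1 : 1 ≤ M) (hM : ∀ p : ℕ, p.Prime → (p ∣ M ↔ p ≤ w)) (ε : ℝ) (hε : 0 < ε) (hε1 : ε ≤ 1) :
    ∀ᶠ N : ℕ in atTop, ∀ q : ℕ,
    (N : ℝ) ≤ q * Real.log N ^ a → q ≤ N → ∀ (δ : ℝ) (m : ℕ) (c b : ℕ → ℕ), δ ≤ Real.exp (-(9 / 4 * Real.log N)) → (∀ j, b j ≤ T * N) →
      ∀ (ι : Type) [Fintype ι] (σ : ι → ℕ → ℕ), Fool δ m (fun j => cls M (c j) (b j) q) σ →
      (1 + ε) * Real.log N ^ 2 ≤ Pw w * sur M c m →
      ((univ.filter fun i => (surv N m (σ i)).Nonempty).card : ℝ) ≤ (N : ℝ) ^ (-(ε / 2)) * Fintype.card ι := by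
  classical
  obtain ⟨K, hK, h1⟩ := meanN T a w M hM1 hM
  have hP := one_le_Pw w
  filter_upwards [h1, ev_log ((2 * K + 1) / (ε / 2)), ev_log (Pw w + 10), eventually_ge_atTop 3] with
    N g1 g2 g3 g4 q hq hqN δ m c b hκ hb ι _ σ hσ hm
  obtain ⟨L, hL⟩ : ∃ L, L = Real.log (N : ℝ) := ⟨_, rfl⟩
  have hN0 : (0 : ℝ) < N := by exact_mod_cast (by omega : 0 < N)
  obtain ⟨t, ht⟩ : ∃ t, t = ⌈(1 + ε) * L ^ 2 / Pw w⌉₊ := ⟨_, rfl⟩
  rw [← hL] at g2 g3 hm hκ
  have hL10 : 10 ≤ L := by linarith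
  have hL0 : 0 < L := by linarith
  have hPpos : 0 < Pw w := by linarith
  have hts : t ≤ sur M c m := by
    rw [ht]
    apply Nat.ceil_le.2
    rw [div_le_iff₀ hPpos]
    linarith
  have k1 := g1 q hq hqN δ m c b hb ι σ hσ t hts
  rw [← hL] at k1
  have hι : (0 : ℝ) ≤ Fintype.card ι := Nat.cast_nonneg _
  have k2 : ((univ.filter fun i => (surv N m (σ i)).Nonempty).card : ℝ) ≤ ∑ i, ((surv N m (σ i)).card : ℝ) := by
    rw [card_filter]
    push_cast
    apply sum_le_sum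
    intro i _
    split_ifs with h
    · exact_mod_cast h.card_pos
    · exact Nat.cast_nonneg _
  refine k2.trans (k1.trans ?_)
  have e0 : (N : ℝ) = Real.exp L := by rw [hL, Real.exp_log hN0]
  have ht1 : (1 + ε) * L ^ 2 / Pw w ≤ t := by rw [ht]; exact Nat.le_ceil _
  have ht2 : (t : ℝ) ≤ (1 + ε) * L ^ 2 / Pw w + 1 := by
    rw [ht]
    exact (Nat.ceil_lt_add_one (by positivity)).le
  have hKL : K ≤ L := by
    rw [div_le_iff₀ (by positivity)] at g2
    nlinarith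
  -- the first exponential
  have f1 : -(t * (Pw w / L * (1 - K / L))) ≤ -((1 + ε) * L) + 2 * K := by
    have h0 : 0 ≤ Pw w / L * (1 - K / L) := by
      apply mul_nonneg (by positivity)
      have : K / L ≤ 1 := by rwa [div_le_one hL0]
      linarith
    have h2 := mul_le_mul_of_nonneg_right ht1 h0
    have h3 : (1 + ε) * L ^ 2 / Pw w * (Pw w / L * (1 - K / L)) = (1 + ε) * (L - K) := by field_simp
    rw [h3] at h2
    nlinarith
  -- the error
  have f5 : δ ≤ Real.exp (-((1 + ε / 2) * L) - 1) := by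
    refine hκ.trans (Real.exp_le_exp.2 ?_)
    nlinarith
  have f4 : Real.exp (-(t * (Pw w / L * (1 - K / L)))) ≤ Real.exp (-((1 + ε / 2) * L) - 1) := by
    apply Real.exp_le_exp.2
    rw [div_le_iff₀ (by positivity)] at g2
    linarith
  have f6 : Real.exp (-((1 + ε / 2) * L) - 1) ≤ 1 / 2 * Real.exp (-((1 + ε / 2) * L)) := by
    rw [Real.exp_sub]
    have h1 : (2 : ℝ) ≤ Real.exp 1 := by have := Real.add_one_le_exp (1 : ℝ); linarith
    rw [div_le_iff₀ (Real.exp_pos _)]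
    have h2 := Real.exp_pos (-((1 + ε / 2) * L))
    nlinarith
  have f7 : Real.exp (-(t * (Pw w / L * (1 - K / L)))) + δ ≤
      Real.exp (-((1 + ε / 2) * L)) := by linarith
  have f8 := mul_le_mul_of_nonneg_left (mul_le_mul_of_nonneg_left f7 hι) hN0.le
  refine f8.trans (le_of_eq ?_)
  rw [Real.rpow_def_of_pos hN0, ← hL]
  have f9 : (N : ℝ) * Real.exp (-((1 + ε / 2) * L)) = Real.exp (L * (-(ε / 2))) := by
    rw [e0, ← Real.exp_add]
    congr 1
    ring
  rw [← f9]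
  ring

end Run7.h251.NI
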